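import Pool.Agent.H48PC.Crv

/-! The Tauberian averages of the products. -/

set_option autoImplicit false

namespace Pool.Agent.H48PC

open NumberField IsDedekindDomain Finset Filter Polynomial
open Pool.Agent.N842.HS (hv absNorm_hv hv_inj hv_surj VT mem_VT hom_finite cf)
open Pool.Agent.N842.ST (av)
open Pool.Agent.W353.SP (average)
open Pool.Agent.H40SY (mp mp_monic mp_natDegree mp_map TraceData tn SS SS_congr SS_add SS_smul SS_mono SS_abs
  sum_recip average_close E_le ev_absorb sep_iff)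

section
variable {K : Type} [Field K] [NumberField K] {n : ℕ}

/-- the normalised trace of the product -/
theorem tn_product (D : TraceData K) (f : (𝓞 K)[X]) (m : ℕ) (R' : Finset (HeightOneSpectrum (𝓞 K)))
    (v : HeightOneSpectrum (𝓞 K)) (h : v ∉ R') (hR : v ∉ D.R) :
    tn 1 R' (productTrace D f m) v = D.N₂ * u₂ D v +
      m * (D.N₁ * u₁ D v * ((curveTrace f v : ℝ) / Real.sqrt (Ideal.absNorm v.asIdeal))) + m +
      m.choose 2 * ((curveTrace f v : ℝ) ^ 2 / (Ideal.absNorm v.asIdeal : ℝ)) := by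
  have hq := norm_pos v
  have hs := Real.sqrt_pos.2 hq
  have e1 := (u₁_spec D v).2 hR
  have e2 := (u₂_spec D v).2 hR
  have h3 : (productTrace D f m v).re = (D.t v).re + m * ((D.s₁ v).re * curveTrace f v) +
      m * (Ideal.absNorm v.asIdeal : ℝ) + m.choose 2 * (curveTrace f v : ℝ) ^ 2 := by
    obtain ⟨A, hA⟩ : ∃ A : ℝ, A = (curveTrace f v : ℝ) := ⟨_, rfl⟩
    have hA' : ((curveTrace f v : ℤ) : ℂ) = ((A : ℝ) : ℂ) := by rw [hA]; push_cast; rfl
    unfold productTrace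
    rw [hA', ← hA]
    have e3 : D.t v + (m : ℂ) * (D.s₁ v * (A : ℂ)) + (m : ℂ) * (Ideal.absNorm v.asIdeal : ℂ) +
        (m.choose 2 : ℂ) * (A : ℂ) ^ 2 = D.t v + D.s₁ v * ((m * A : ℝ) : ℂ) +
        ((m * (Ideal.absNorm v.asIdeal : ℝ) + m.choose 2 * A ^ 2 : ℝ) : ℂ) := by
      push_cast
      ring
    rw [e3]
    simp only [Complex.add_re, Complex.re_mul_ofReal, Complex.ofReal_re]
    ring
  unfold tn
  rw [if_neg h, h3, e1, e2, pow_one]
  have hss : Real.sqrt (Ideal.absNorm v.asIdeal) * Real.sqrt (Ideal.absNorm v.asIdeal) =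
      (Ideal.absNorm v.asIdeal : ℝ) := Real.mul_self_sqrt hq.le
  have h4 : (D.s₁ v).re / Real.sqrt (Ideal.absNorm v.asIdeal) *
      ((curveTrace f v : ℝ) / Real.sqrt (Ideal.absNorm v.asIdeal)) =
      (D.s₁ v).re * curveTrace f v / (Ideal.absNorm v.asIdeal : ℝ) := by
    rw [div_mul_div_comm, hss]
  rw [h4]
  field_simp

theorem choose_two_le (m : ℕ) : (m : ℝ) + m.choose 2 = m * (m + 1) / 2 ∧ (m : ℝ) + m.choose 2 ≤ (m : ℝ) ^ 2 := by
  have h1 : ((m.choose 2 : ℕ) : ℝ) = m * (m - 1) / 2 := Nat.cast_choose_two ℝ m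
  rw [h1]
  refine ⟨by ring, ?_⟩
  rcases Nat.eq_zero_or_pos m with h | h
  · rw [h]
    norm_num
  · have : (1 : ℝ) ≤ m := by exact_mod_cast h
    nlinarith

/-- **The averages.** -/
theorem product_close (hn : Odd n) (hn3 : 3 ≤ n) (δ : ℝ) (hδ : 0 < δ) : ∃ T₀ : ℕ, ∀ (a : Fin n → 𝓞 K)
    (U : ℕ → Finset (HeightOneSpectrum (𝓞 K) → ℝ)), (∀ T, ∀ u ∈ U T, ∀ v, |u v| ≤ 1) →
    ∀ (E Q y : ℕ), Law (tf (n := n)) a δ U E Q y → ∀ T : ℕ, T₀ ≤ T → y ≤ T → T ^ E ≤ Q →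
    ∀ D : TraceData K, u₀ D ∈ U T → u₁ D ∈ U T →
      ProductClose D (mp a) T ((T : ℝ) ^ (-(1 / 2) + δ)) := by
  classical
  obtain ⟨d, hd⟩ : ∃ d : ℝ, d = Module.finrank ℚ K := ⟨_, rfl⟩
  have hd0 : 0 ≤ d := by rw [hd]; positivity
  obtain ⟨C, hC⟩ : ∃ C : ℝ, C = 1 + 3 * (d * (n + 2)) := ⟨_, rfl⟩
  have hC0 : 0 ≤ C := by rw [hC]; positivity
  obtain ⟨T₂, hT₂⟩ := eventually_atTop.1 (ev_absorb ((1 + (n : ℝ) ^ 2) * C + ((n : ℝ) ^ 2 + 2) * d) δ hδ)
  refine ⟨T₂ + 3, fun a U hU1 E Q y hlaw T hT hyT hTE D hw0 hw1 m R' hR' => ?_⟩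
  have hyQ : y ^ E ≤ Q := (Nat.pow_le_pow_left hyT E).trans hTE
  have hl := hlaw hyQ T hyT hTE
  have hT0 : (0 : ℝ) < T := by exact_mod_cast (by omega : 0 < T)
  have hT1' : (1 : ℝ) ≤ T := by exact_mod_cast (by omega : 1 ≤ T)
  have hT3' : (3 : ℝ) ≤ T := by exact_mod_cast (by omega : 3 ≤ T)
  have hlogT : 0 ≤ Real.log T := Real.log_natCast_nonneg T
  have hnR : (3 : ℝ) ≤ n := by exact_mod_cast hn3
  obtain ⟨P₀, hP₀⟩ : ∃ P : ℝ, P = (T : ℝ) ^ (1 / 2 + δ / 2) := ⟨_, rfl⟩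
  obtain ⟨L, hL⟩ : ∃ L : ℝ, L = d * ((1 + Real.log T) * Real.log T) := ⟨_, rfl⟩
  have hL0 : 0 ≤ L := by rw [hL]; positivity
  have hP₀0 : 0 ≤ P₀ := by rw [hP₀]; positivity
  rw [← hP₀] at hl
  obtain ⟨N₁, hN₁⟩ : ∃ N : ℝ, N = (D.N₁ : ℝ) := ⟨_, rfl⟩
  obtain ⟨N₂, hN₂⟩ : ∃ N : ℝ, N = (D.N₂ : ℝ) := ⟨_, rfl⟩
  have hN₁0 : 0 ≤ N₁ := by rw [hN₁]; positivity
  have hN₂0 : 0 ≤ N₂ := by rw [hN₂]; positivity
  obtain ⟨ch, hch⟩ : ∃ c : ℝ, c = (m.choose 2 : ℝ) := ⟨_, rfl⟩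
  have hch0 : 0 ≤ ch := by rw [hch]; positivity
  have hm0 : (0 : ℝ) ≤ m := Nat.cast_nonneg m
  obtain ⟨hcm1, hcm2⟩ := choose_two_le m
  rw [← hch] at hcm1 hcm2
  obtain ⟨W, hW⟩ : ∃ W : ℝ, W = N₂ + m * N₁ + (m : ℝ) ^ 2 := ⟨_, rfl⟩
  have hW0 : 0 ≤ W := by rw [hW]; positivity
  -- reciprocal sums
  have hrec : ∀ (c : ℝ) (F : ∀ (p : ℕ) [Fact p.Prime], (𝓞 K →+* ZMod p) → ℝ), 0 ≤ c →
      (∀ (p : ℕ) [Fact p.Prime] (φ : 𝓞 K →+* ZMod p), |F p φ| ≤ (c / p) * Real.log p) →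
      |SS T F| ≤ c * L := by
    intro c F hc hF
    refine (SS_abs (K := K) T (g := fun p _ _ => (c * Real.log T) * (1 / (p : ℝ)))
      fun p hp φ hpT => ?_).trans ?_
    · have hp0 : (0 : ℝ) < p := by exact_mod_cast hp.out.pos
      have h4 : Real.log p ≤ Real.log T := Real.log_le_log hp0 (by exact_mod_cast hpT)
      refine (hF p φ).trans ?_
      calc (c / p) * Real.log p ≤ (c / p) * Real.log T := mul_le_mul_of_nonneg_left h4 (by positivity)
        _ = _ := by ring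
    · rw [SS_smul]
      refine (mul_le_mul_of_nonneg_left (sum_recip K T) (by positivity)).trans (le_of_eq ?_)
      rw [hL, hd]
      ring
  -- the law
  have k0 : |SS T (fun p _ φ => u₁ D (hv φ) * (tf 0 p (fun i => φ (a i)) * Real.log p))| ≤ P₀ := by
    have h1 := hl (u₁ D) (Or.inl hw1) 0
    have h2 : SS T (fun p _ φ => u₁ D (hv φ) * (av p (tf (n := n) 0 p) * Real.log p)) = 0 := by
      have h3 : SS T (fun p _ φ => u₁ D (hv φ) * (av p (tf (n := n) 0 p) * Real.log p)) =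
          SS (K := K) T (fun p _ φ => 0 * (0 : ℝ)) :=
        SS_congr T fun p _ φ _ => by
          rw [av_zero (by omega)]
          ring
      rw [h3, SS_smul, zero_mul]
    rw [h2, sub_zero] at h1
    exact h1
  have k1 : |SS T (fun p _ φ => u₀ D (hv φ) * (tf 1 p (fun i => φ (a i)) * Real.log p)) -
      SS T (fun p _ φ => u₀ D (hv φ) * Real.log p)| ≤ P₀ + 2 * L := by
    have h1 := hl (u₀ D) (Or.inl hw0) 1
    have h2 : SS T (fun p _ φ => u₀ D (hv φ) * (av p (tf (n := n) 1 p) * Real.log p)) =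
        SS T (fun p _ φ => u₀ D (hv φ) * Real.log p) +
        SS T (fun p _ φ => u₀ D (hv φ) * ((av p (tf (n := n) 1 p) - 1) * Real.log p)) := by
      rw [← SS_add]
      exact SS_congr T fun p _ φ _ => by ring
    have h3 := hrec 2 (fun p _ φ => u₀ D (hv φ) * ((av p (tf (n := n) 1 p) - 1) * Real.log p)) (by norm_num)
      (fun p hp φ => by
        have hlog : 0 ≤ Real.log p := Real.log_natCast_nonneg p
        rw [abs_mul, abs_mul, abs_of_nonneg hlog]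
        calc _ ≤ 1 * ((2 / p) * Real.log p) := by
              refine mul_le_mul (u₀_abs D _) (mul_le_mul_of_nonneg_right (av_one (by omega) p) hlog)
                (by positivity) zero_le_one
          _ = _ := one_mul _)
    rw [h2] at h1
    have f1 := abs_le.1 h1
    have f2 := abs_le.1 h3
    rw [abs_le]
    constructor <;> linarith
  have k2 : SS T (fun p _ φ => tf 2 p (fun i => φ (a i)) * Real.log p) ≤ P₀ + (n + 2) * L := by
    have h1 := hl (fun _ => 1) (Or.inr rfl) 2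
    have h2 : SS T (fun p _ φ => (1 : ℝ) * (tf 2 p (fun i => φ (a i)) * Real.log p)) =
        SS T (fun p _ φ => tf 2 p (fun i => φ (a i)) * Real.log p) :=
      SS_congr T fun p _ _ _ => one_mul _
    have h3 := hrec (n + 2) (fun p _ _ => (1 : ℝ) * (av p (tf (n := n) 2 p) * Real.log p)) (by positivity)
      (fun p hp φ => by
        have hlog : 0 ≤ Real.log p := Real.log_natCast_nonneg p
        rw [one_mul, abs_mul, abs_of_nonneg hlog, abs_of_nonneg (av_two p).1]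
        exact mul_le_mul_of_nonneg_right (av_two p).2 hlog)
    rw [h2] at h1
    have f1 := abs_le.1 h1
    have f2 := abs_le.1 h3
    linarith
  have hRR : ∀ v, v ∉ R' → v ∉ D.R := fun v h1 h2 => h1 ((hR' v).2 (Or.inl h2))
  have hu1 : ∀ v, |N₁ * u₁ D v| ≤ N₁ := by
    intro v
    rw [abs_mul, abs_of_nonneg hN₁0]
    exact mul_le_of_le_one_right hN₁0 (u₁_spec D v).1
  have hu2 : ∀ v, |N₂ * u₂ D v| ≤ N₂ := by
    intro v
    rw [abs_mul, abs_of_nonneg hN₂0]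
    exact mul_le_of_le_one_right hN₂0 (u₂_spec D v).1
  have hn2 : (1 : ℝ) ≤ (n : ℝ) ^ 2 := by nlinarith
  have hsum : ∀ x1 x2 x3 x4 : ℝ, |x1| ≤ N₂ → |x2| ≤ N₁ → |x3| ≤ (n : ℝ) ^ 2 → |x4| ≤ (n : ℝ) ^ 2 →
      ∀ x5 : ℝ, |x5| ≤ 1 →
      |x1 + m * (x2 * x3) + m * x5 + ch * (x5 * x4)| ≤ (n : ℝ) ^ 2 * W := by
    intro x1 x2 x3 x4 h1 h2 h3 h4 x5 h5
    have g1 : |m * (x2 * x3)| ≤ m * (N₁ * (n : ℝ) ^ 2) := by
      rw [abs_mul, abs_mul, abs_of_nonneg hm0]
      exact mul_le_mul_of_nonneg_left (mul_le_mul h2 h3 (abs_nonneg _) hN₁0) hm0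
    have g2 : |m * x5| ≤ m := by
      rw [abs_mul, abs_of_nonneg hm0]
      exact mul_le_of_le_one_right hm0 h5
    have g3 : |ch * (x5 * x4)| ≤ ch * (1 * (n : ℝ) ^ 2) := by
      rw [abs_mul, abs_mul, abs_of_nonneg hch0]
      exact mul_le_mul_of_nonneg_left (mul_le_mul h5 h4 (abs_nonneg _) zero_le_one) hch0
    have g4 := abs_add_le (x1 + m * (x2 * x3) + m * x5) (ch * (x5 * x4))
    have g5 := abs_add_le (x1 + m * (x2 * x3)) (m * x5)
    have g6 := abs_add_le x1 (m * (x2 * x3))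
    have g7 : (n : ℝ) ^ 2 * W = (n : ℝ) ^ 2 * N₂ + m * (N₁ * (n : ℝ) ^ 2) + (n : ℝ) ^ 2 * (m : ℝ) ^ 2 := by
      rw [hW]; ring
    have g8 : N₂ ≤ (n : ℝ) ^ 2 * N₂ := le_mul_of_one_le_left hN₂0 hn2
    have g9 : (m : ℝ) + ch * (n : ℝ) ^ 2 ≤ (n : ℝ) ^ 2 * (m : ℝ) ^ 2 := by
      have : (m : ℝ) + ch * (n : ℝ) ^ 2 ≤ (n : ℝ) ^ 2 * (m + ch) := by nlinarith
      exact this.trans (mul_le_mul_of_nonneg_left hcm2 (by positivity))
    linarith
  -- the bounds
  have hb1 : ∀ v, |tn 1 R' (productTrace D (mp a) m) v| ≤ (n : ℝ) ^ 2 * W := by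
    intro v
    by_cases h : v ∈ R'
    · unfold tn
      rw [if_pos h, abs_zero]
      positivity
    · have hvR := hRR v h
      have h2v : (2 : 𝓞 K) ∉ v.asIdeal := fun h2 => h ((hR' v).2 (Or.inr (Or.inl h2)))
      have hq := norm_pos v
      have hs := Real.sqrt_pos.2 hq
      have hA := curve_abs hn a v h2v
      rw [tn_product D (mp a) m R' v h hvR, ← hN₁, ← hN₂, ← hch]
      have h3 : |(curveTrace (mp a) v : ℝ) / Real.sqrt (Ideal.absNorm v.asIdeal)| ≤ (n : ℝ) ^ 2 := by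
        rw [abs_div, abs_of_pos hs, div_le_iff₀ hs]
        refine hA.trans (mul_le_mul_of_nonneg_right ?_ hs.le)
        nlinarith
      have h4 : |(curveTrace (mp a) v : ℝ) ^ 2 / (Ideal.absNorm v.asIdeal : ℝ)| ≤ (n : ℝ) ^ 2 := by
        rw [abs_div, abs_of_pos hq, div_le_iff₀ hq, abs_pow]
        have h1 := pow_le_pow_left₀ (abs_nonneg _) hA 2
        rwa [mul_pow, Real.sq_sqrt hq.le] at h1
      have := hsum _ _ _ _ (hu2 v) (hu1 v) h3 h4 1 (by norm_num)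
      rw [mul_one, one_mul] at this
      exact this
  have hb2 : ∀ v, |tn 1 D.R D.t v| ≤ N₂ := by
    intro v
    have hq := norm_pos v
    unfold tn
    by_cases h : v ∈ D.R
    · rw [if_pos h, abs_zero]
      exact hN₂0
    · rw [if_neg h, pow_one, abs_div, abs_of_pos hq, div_le_iff₀ hq, hN₂]
      exact (Complex.abs_re_le_norm _).trans (bounds D v h).2
  have hb3 : ∀ v, |tn 1 D.R (fun v => (Ideal.absNorm v.asIdeal : ℂ)) v| ≤ 1 := by
    intro v
    have hq := norm_pos v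
    unfold tn
    by_cases h : v ∈ D.R
    · rw [if_pos h, abs_zero]
      norm_num
    · rw [if_neg h, pow_one, Complex.natCast_re, div_self hq.ne', abs_one]
  have c1 := average_close (by positivity) hb1 T (by omega)
  have c2 := average_close hN₂0 hb2 T (by omega)
  have c3 := average_close zero_le_one hb3 T (by omega)
  rw [← hd] at c1 c2 c3
  -- the sums
  obtain ⟨Y₂, hY₂⟩ : ∃ Y : ℝ, Y = SS T (fun p _ φ => u₂ D (hv φ) * Real.log p) := ⟨_, rfl⟩
  obtain ⟨Y₀, hY₀⟩ : ∃ Y : ℝ, Y = SS T (fun p _ φ => u₀ D (hv φ) * Real.log p) := ⟨_, rfl⟩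
  obtain ⟨X₀, hX₀⟩ : ∃ X : ℝ, X = SS T (fun p _ φ => u₁ D (hv φ) * (tf 0 p (fun i => φ (a i)) * Real.log p)) :=
    ⟨_, rfl⟩
  obtain ⟨X₁, hX₁⟩ : ∃ X : ℝ, X = SS T (fun p _ φ => u₀ D (hv φ) * (tf 1 p (fun i => φ (a i)) * Real.log p)) :=
    ⟨_, rfl⟩
  rw [← hX₀] at k0
  rw [← hX₁, ← hY₀] at k1
  have s2 : SS T (fun p _ φ => tn 1 D.R D.t (hv φ) * Real.log p) = N₂ * Y₂ := by
    rw [hY₂, ← SS_smul]
    refine SS_congr T fun p _ φ _ => ?_
    rw [← mul_assoc]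
    congr 1
    by_cases h : hv φ ∈ D.R
    · unfold tn u₂
      rw [if_pos h, if_pos h, mul_zero]
    · rw [hN₂, (u₂_spec D (hv φ)).2 h]
      unfold tn
      rw [if_neg h, pow_one]
  have s3 : SS T (fun p _ φ => tn 1 D.R (fun v => (Ideal.absNorm v.asIdeal : ℂ)) (hv φ) * Real.log p) = Y₀ := by
    rw [hY₀]
    refine SS_congr T fun p _ φ _ => ?_
    congr 1
    have hq := norm_pos (hv φ)
    unfold tn u₀
    by_cases h : hv φ ∈ D.R
    · rw [if_pos h, if_pos h]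
    · rw [if_neg h, if_neg h, pow_one, Complex.natCast_re, div_self hq.ne']
  -- the local identity
  obtain ⟨Z, hZ⟩ : ∃ Z : ∀ (p : ℕ) [Fact p.Prime], (𝓞 K →+* ZMod p) → ℝ,
      ∀ (p : ℕ) [Fact p.Prime] (φ : 𝓞 K →+* ZMod p), Z p φ =
      N₂ * u₂ D (hv φ) + m * (N₁ * u₁ D (hv φ) * tf 0 p (fun i => φ (a i))) + m * u₀ D (hv φ) +
        ch * (u₀ D (hv φ) * tf 1 p (fun i => φ (a i))) := ⟨fun p _ φ => _, fun p _ φ => rfl⟩
  have hZb : ∀ (p : ℕ) [Fact p.Prime] (φ : 𝓞 K →+* ZMod p), |Z p φ| ≤ (n : ℝ) ^ 2 * W := by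
    intro p hp φ
    rw [hZ p φ]
    exact hsum _ _ _ _ (hu2 _) (hu1 _) (tf_abs hn 0 p _) (tf_abs hn 1 p _) _ (u₀_abs D _)
  have hloc : ∀ (p : ℕ) [Fact p.Prime] (φ : 𝓞 K →+* ZMod p),
      tn 1 R' (productTrace D (mp a) m) (hv φ) = Z p φ - tf 2 p (fun i => φ (a i)) * Z p φ := by
    intro p hp φ
    by_cases h : hv φ ∈ R'
    · have hz : tn 1 R' (productTrace D (mp a) m) (hv φ) = 0 := by
        unfold tn
        rw [if_pos h]
      rw [hz]
      by_cases hR : hv φ ∈ D.R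
      · have hz' : Z p φ = 0 := by
          rw [hZ p φ]
          unfold u₀ u₁ u₂
          rw [if_pos hR, if_pos hR, if_pos hR]
          ring
        rw [hz']
        ring
      · have h2 : tf 2 p (fun i => φ (a i)) = 1 := by
          show tf2 p (fun i => φ (a i)) = 1
          unfold tf2
          rw [if_neg]
          rintro ⟨h3, h4⟩
          rcases (hR' _).1 h with h5 | h5 | h5
          · exact hR h5
          · exact h3 ((two_mem_iff p φ).1 h5)
          · exact h5 ((sep_iff a p φ).2 h4)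
        rw [h2]
        ring
    · have hR := hRR _ h
      have hp2 : p ≠ 2 := fun h3 => h ((hR' _).2 (Or.inr (Or.inl ((two_mem_iff p φ).2 h3))))
      have hsep : (mp (fun i => φ (a i))).Separable := by
        by_contra h3
        exact h ((hR' _).2 (Or.inr (Or.inr fun h4 => h3 ((sep_iff a p φ).1 h4))))
      have h2 : tf 2 p (fun i => φ (a i)) = 0 := by
        show tf2 p (fun i => φ (a i)) = 0
        unfold tf2
        rw [if_pos ⟨hp2, hsep⟩]
      have h0 : tf 0 p (fun i => φ (a i)) = -(chs p (fun i => φ (a i)) / Real.sqrt p) := by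
        show tf0 p (fun i => φ (a i)) = _
        unfold tf0
        rw [if_neg hp2]
      have h1 : tf 1 p (fun i => φ (a i)) = chs p (fun i => φ (a i)) ^ 2 / p := by
        show tf1 p (fun i => φ (a i)) = _
        unfold tf1
        rw [if_neg hp2]
      have h3 : u₀ D (hv φ) = 1 := by
        unfold u₀
        rw [if_neg hR]
      rw [tn_product D (mp a) m R' (hv φ) h hR, ← hN₁, ← hN₂, ← hch, curve_hv a p hp2 φ, absNorm_hv, h2, hZ p φ]
      rw [h0, h1, h3]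
      ring
  have s1 : SS T (fun p _ φ => tn 1 R' (productTrace D (mp a) m) (hv φ) * Real.log p) =
      (N₂ * Y₂ + (m * N₁ * X₀ + (m * Y₀ + ch * X₁))) +
      SS T (fun p _ φ => -(tf 2 p (fun i => φ (a i)) * Z p φ) * Real.log p) := by
    have e1 : SS T (fun p _ φ => tn 1 R' (productTrace D (mp a) m) (hv φ) * Real.log p) =
        SS T (fun p _ φ => (N₂ * (u₂ D (hv φ) * Real.log p) +
          (m * N₁ * (u₁ D (hv φ) * (tf 0 p (fun i => φ (a i)) * Real.log p)) +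
          (m * (u₀ D (hv φ) * Real.log p) +
          ch * (u₀ D (hv φ) * (tf 1 p (fun i => φ (a i)) * Real.log p))))) +
          (-(tf 2 p (fun i => φ (a i)) * Z p φ) * Real.log p)) := by
      refine SS_congr T fun p _ φ _ => ?_
      rw [hloc]
      have e2 : Z p φ = N₂ * u₂ D (hv φ) + m * (N₁ * u₁ D (hv φ) * tf 0 p (fun i => φ (a i))) +
        m * u₀ D (hv φ) + ch * (u₀ D (hv φ) * tf 1 p (fun i => φ (a i))) := hZ p φ
      linear_combination (Real.log p) * e2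
    rw [e1, SS_add, SS_add, SS_add, SS_add, SS_smul, SS_smul, SS_smul, SS_smul, ← hX₀, ← hX₁, ← hY₀, ← hY₂]
  have hbad : |SS T (fun p _ φ => -(tf 2 p (fun i => φ (a i)) * Z p φ) * Real.log p)| ≤
      (n : ℝ) ^ 2 * W * (P₀ + (n + 2) * L) := by
    refine (SS_abs (K := K) T (g := fun p _ φ => ((n : ℝ) ^ 2 * W) *
      (tf 2 p (fun i => φ (a i)) * Real.log p)) fun p _ φ _ => ?_).trans ?_
    · have hlog : 0 ≤ Real.log p := Real.log_natCast_nonneg p
      have h0 : 0 ≤ tf 2 p (fun i => φ (a i)) := by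
        show 0 ≤ tf2 p (fun i => φ (a i))
        unfold tf2
        split_ifs <;> norm_num
      rw [abs_mul, abs_neg, abs_mul, abs_of_nonneg hlog, abs_of_nonneg h0]
      have := mul_le_mul_of_nonneg_left (hZb p φ) (mul_nonneg h0 hlog)
      nlinarith
    · rw [SS_smul]
      exact mul_le_mul_of_nonneg_left k2 (by positivity)
  rw [s1] at c1
  rw [s2] at c2
  rw [s3] at c3
  obtain ⟨X₂, hX₂⟩ : ∃ X : ℝ, X = SS T (fun p _ φ => -(tf 2 p (fun i => φ (a i)) * Z p φ) * Real.log p) :=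
    ⟨_, rfl⟩
  rw [← hX₂] at c1 hbad
  have hsq : Real.sqrt T ≤ P₀ := by
    rw [Real.sqrt_eq_rpow, hP₀]
    exact Real.rpow_le_rpow_of_exponent_le hT1' (by linarith)
  obtain ⟨P, hP⟩ : ∃ P : ℝ, P = P₀ * Real.log T := ⟨_, rfl⟩
  have hsl : Real.sqrt T * Real.log T ≤ P := by
    rw [hP]
    exact mul_le_mul_of_nonneg_right hsq hlogT
  have hEle : P₀ + (n + 2) * L ≤ C * P := by
    have h1 := E_le T d ((n : ℝ) + 2) δ hT3' hd0 (by positivity) hδ
    rw [← hP₀, ← hP, ← hC] at h1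
    refine le_trans (le_of_eq ?_) h1
    rw [hL]
    ring
  have hgrow := hT₂ T (by omega)
  rw [← hP₀, ← hP] at hgrow
  have hCP0 : 0 ≤ C * P := le_trans (by positivity) hEle
  have hP0 : P₀ ≤ C * P := le_trans (by nlinarith) hEle
  have hP2 : P₀ + 2 * L ≤ C * P := le_trans (by nlinarith) hEle
  have hmain0 : |(N₂ * Y₂ + (m * N₁ * X₀ + (m * Y₀ + ch * X₁))) + X₂ - (N₂ * Y₂ + (m * (m + 1) / 2) * Y₀)| ≤
      (1 + (n : ℝ) ^ 2) * C * P * W := by
    have e1 : (N₂ * Y₂ + (m * N₁ * X₀ + (m * Y₀ + ch * X₁))) + X₂ - (N₂ * Y₂ + (m * (m + 1) / 2) * Y₀) =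
        m * N₁ * X₀ + ch * (X₁ - Y₀) + X₂ := by
      rw [← hcm1]
      ring
    rw [e1]
    have g1 : |m * N₁ * X₀| ≤ m * N₁ * (C * P) := by
      rw [abs_mul, abs_of_nonneg (by positivity : (0 : ℝ) ≤ m * N₁)]
      exact mul_le_mul_of_nonneg_left (k0.trans hP0) (by positivity)
    have g2 : |ch * (X₁ - Y₀)| ≤ ch * (C * P) := by
      rw [abs_mul, abs_of_nonneg hch0]
      exact mul_le_mul_of_nonneg_left (k1.trans hP2) hch0
    have g3 : |X₂| ≤ (n : ℝ) ^ 2 * W * (C * P) :=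
      hbad.trans (mul_le_mul_of_nonneg_left hEle (by positivity))
    have g4 := abs_add_le (m * N₁ * X₀ + ch * (X₁ - Y₀)) X₂
    have g5 := abs_add_le (m * N₁ * X₀) (ch * (X₁ - Y₀))
    have g6 : m * N₁ * (C * P) + ch * (C * P) ≤ W * (C * P) := by
      rw [← add_mul]
      refine mul_le_mul_of_nonneg_right ?_ hCP0
      rw [hW]
      linarith
    have g7 : (1 + (n : ℝ) ^ 2) * C * P * W = W * (C * P) + (n : ℝ) ^ 2 * W * (C * P) := by ring
    linarith
  have hmain : |(T : ℝ) * average 1 R' (productTrace D (mp a) m) T - ((T : ℝ) * average 1 D.R D.t T +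
      (m * (m + 1) / 2) * ((T : ℝ) * average 1 D.R (fun v => (Ideal.absNorm v.asIdeal : ℂ)) T))| ≤
      W * (T : ℝ) ^ (1 / 2 + δ) := by
    have f1 := abs_le.1 c1
    have f2 := abs_le.1 c2
    have f4 := abs_le.1 hmain0
    have hM0 : (0 : ℝ) ≤ m * (m + 1) / 2 := by positivity
    have c3' : |(m * (m + 1) / 2 : ℝ) * ((T : ℝ) * average 1 D.R (fun v => (Ideal.absNorm v.asIdeal : ℂ)) T) -
        (m * (m + 1) / 2) * Y₀| ≤ (m : ℝ) ^ 2 * (d * P) := by
      rw [← mul_sub, abs_mul, abs_of_nonneg hM0]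
      have h1 : (m * (m + 1) / 2 : ℝ) ≤ (m : ℝ) ^ 2 := by rw [← hcm1]; exact hcm2
      refine mul_le_mul h1 (c3.trans ?_) (abs_nonneg _) (by positivity)
      rw [one_mul]
      exact mul_le_mul_of_nonneg_left hsl hd0
    have f3 := abs_le.1 c3'
    have g1 : (n : ℝ) ^ 2 * W * (d * (Real.sqrt T * Real.log T)) ≤ (n : ℝ) ^ 2 * W * (d * P) := by
      apply mul_le_mul_of_nonneg_left _ (by positivity)
      exact mul_le_mul_of_nonneg_left hsl hd0
    have g2 : N₂ * (d * (Real.sqrt T * Real.log T)) ≤ N₂ * (d * P) := by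
      apply mul_le_mul_of_nonneg_left _ hN₂0
      exact mul_le_mul_of_nonneg_left hsl hd0
    have hPnn : 0 ≤ P := by rw [hP]; positivity
    have hNW : N₂ + (m : ℝ) ^ 2 ≤ W := by
      rw [hW]
      have : 0 ≤ m * N₁ := by positivity
      linarith
    have g3 : N₂ * (d * P) + (m : ℝ) ^ 2 * (d * P) ≤ 2 * W * (d * P) := by
      rw [← add_mul]
      refine mul_le_mul_of_nonneg_right ?_ (by positivity)
      linarith
    have g4 := mul_le_mul_of_nonneg_left hgrow hW0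
    have g5 : (1 + (n : ℝ) ^ 2) * C * P * W + ((n : ℝ) ^ 2 * W * (d * P) + 2 * W * (d * P)) ≤
        W * (T : ℝ) ^ (1 / 2 + δ) := by
      refine le_trans (le_of_eq ?_) g4
      ring
    rw [abs_le]
    constructor <;> linarith
  rw [← hN₁, ← hN₂, ← hW]
  have hfin : |average 1 R' (productTrace D (mp a) m) T - (average 1 D.R D.t T +
      (m * (m + 1) / 2) * average 1 D.R (fun v => (Ideal.absNorm v.asIdeal : ℂ)) T)| * T ≤
      W * (T : ℝ) ^ (1 / 2 + δ) := by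
    have e1 : (T : ℝ) * average 1 R' (productTrace D (mp a) m) T - ((T : ℝ) * average 1 D.R D.t T +
        (m * (m + 1) / 2) * ((T : ℝ) * average 1 D.R (fun v => (Ideal.absNorm v.asIdeal : ℂ)) T)) =
        (T : ℝ) * (average 1 R' (productTrace D (mp a) m) T - (average 1 D.R D.t T +
        (m * (m + 1) / 2) * average 1 D.R (fun v => (Ideal.absNorm v.asIdeal : ℂ)) T)) := by ring
    rw [e1, abs_mul, abs_of_pos hT0] at hmain
    linarith
  have h9 : W * (T : ℝ) ^ (1 / 2 + δ) = W * (T : ℝ) ^ (-(1 / 2) + δ) * T := by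
    have : (T : ℝ) ^ (1 / 2 + δ) = (T : ℝ) ^ (-(1 / 2) + δ) * T := by
      rw [← Real.rpow_add_one hT0.ne']
      congr 1
      ring
    rw [this, mul_assoc]
  rw [h9] at hfin
  exact le_of_mul_le_mul_right hfin hT0

end

end Pool.Agent.H48PC
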