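import Pool.Agent.H40SY.WDefs

/-!
# Tauberian averages of products with powers of curves: definitions

`K` is a number field, `X` a smooth projective variety over `K`, `f` a monic polynomial over `𝓞_K` of odd
degree with distinct roots, and `C` the smooth projective curve `y ^ 2 = f(x)`, of genus `(deg f - 1) / 2`.
By the formula of Künneth `H^2(X × C ^ m)` is the sum of `H^2(X)`, of `m` copies of `H^1(X) ⊗ H^1(C)`, of `m`
copies of `H^2(C)`, and of `m (m - 1) / 2` copies of `H^1(C) ⊗ H^1(C)`.
-/

set_option autoImplicit false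

namespace Pool.Agent.H48PC

open Polynomial NumberField IsDedekindDomain
open Pool.Agent.W353.SP (average)
open Pool.Agent.H40SY (TraceData IsSymmetric poly)

section
variable {K : Type} [Field K] [NumberField K] {n g : ℕ}

/-- The trace of the Frobenius at `v` on `H^1` of the curve `y ^ 2 = f(x)`, `f` monic of odd degree: `q_v + 1`
minus the number of the points over the residue field, and there is one point at infinity. -/
noncomputable def curveTrace (f : (𝓞 K)[X]) (v : HeightOneSpectrum (𝓞 K)) : ℤ :=
  (Ideal.absNorm v.asIdeal : ℤ) + 1 -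
    (Nat.card {P : (𝓞 K ⧸ v.asIdeal) × (𝓞 K ⧸ v.asIdeal) //
      P.2 ^ 2 = (f.map (Ideal.Quotient.mk v.asIdeal)).eval P.1} + 1)

/-- The trace of the Frobenius at `v` on the second cohomology group of the product of `X` and of `m` copies of
the curve `y ^ 2 = f(x)`. -/
noncomputable def productTrace (D : TraceData K) (f : (𝓞 K)[X]) (m : ℕ) (v : HeightOneSpectrum (𝓞 K)) : ℂ :=
  D.t v + m * (D.s₁ v * curveTrace f v) + m * (Ideal.absNorm v.asIdeal : ℂ) +
    m.choose 2 * (curveTrace f v : ℂ) ^ 2

/-- For all `m` the Tauberian average up to `T` for the product of `X` and of `m` copies of the curve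
`y ^ 2 = f(x)` differs from the average for `X` plus `m (m + 1) / 2` times the average for the projective line
by at most `(N₂ + m N₁ + m ^ 2) ε`, where `N₁` and `N₂` are the Betti numbers of `X`.  (`R` is the finite set of
the excluded primes for `X`, and `R'` is the set of the primes in `R`, of the primes above `2` and of the
primes modulo which `f` is not separable.) -/
def ProductClose (D : TraceData K) (f : (𝓞 K)[X]) (T : ℕ) (ε : ℝ) : Prop :=
  ∀ (m : ℕ) (R' : Finset (HeightOneSpectrum (𝓞 K))),
    (∀ v, v ∈ R' ↔ v ∈ D.R ∨ (2 : 𝓞 K) ∈ v.asIdeal ∨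
      ¬ (f.map (Ideal.Quotient.mk v.asIdeal)).Separable) →
    |average 1 R' (productTrace D f m) T - (average 1 D.R D.t T +
      (m * (m + 1) / 2) * average 1 D.R (fun v => (Ideal.absNorm v.asIdeal : ℂ)) T)| ≤
      (D.N₂ + m * D.N₁ + m ^ 2) * ε

/-- (If `y ^ E ≤ Q`.)  The Galois group of the polynomial `f = poly ω c` over `K` is the symmetric group,
and for all `T ≥ y` with `T ^ E ≤ Q` and for the first `T ^ B` of the varieties `V j` the averages up to `T` for
the products of `V j` and of any number `m` of copies of the curve `y ^ 2 = f(x)` satisfy `ProductClose` with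
`ε = T ^ (-1/2 + δ)`. -/
def ProductLaw (ω : Fin g → 𝓞 K) (δ : ℝ) (B : ℕ) (V : ℕ → TraceData K) (E Q y : ℕ)
    (c : Fin n → Fin g → ℤ) : Prop :=
  y ^ E ≤ Q → IsSymmetric (poly ω c) ∧ ∀ T : ℕ, y ≤ T → T ^ E ≤ Q → ∀ j : ℕ, j < T ^ B →
    ProductClose (V j) (poly ω c) T ((T : ℝ) ^ (-(1 / 2) + δ))

end

end Pool.Agent.H48PC
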