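import Pool.Agent.H48PC.Mom
import Pool.Agent.H48PC.Defs

/-! The traces of the curves and the weights of the varieties. -/

set_option autoImplicit false

namespace Pool.Agent.H48PC

open NumberField IsDedekindDomain Finset Filter Polynomial
open Pool.Agent.N842.HS (hv absNorm_hv hv_inj hv_surj VT mem_VT hom_finite cf)
open Pool.Agent.W353.EF (IsFrobenius)
open Pool.Agent.H40SY (mp mp_monic mp_natDegree mp_map TraceData tn)

section
variable {R S : Type} [CommRing R] [CommRing S]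

theorem count_congr (e : R ≃+* S) (f : R[X]) :
    Nat.card {P : R × R // P.2 ^ 2 = f.eval P.1} =
      Nat.card {P : S × S // P.2 ^ 2 = (f.map (e : R →+* S)).eval P.1} := by
  refine Nat.card_congr (Equiv.subtypeEquiv (Equiv.prodCongr e.toEquiv e.toEquiv) fun P => ?_)
  show P.2 ^ 2 = f.eval P.1 ↔ (e P.2) ^ 2 = (f.map (e : R →+* S)).eval (e P.1)
  have h1 : (f.map (e : R →+* S)).eval (e P.1) = e (f.eval P.1) := by
    rw [eval_map]
    exact eval₂_at_apply (e : R →+* S) P.1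
  rw [h1, ← map_pow]
  exact e.injective.eq_iff.symm

end

section
variable {F : Type} [Field F] [Fintype F] [DecidableEq F]

theorem card_curve (hF : ringChar F ≠ 2) (f : F[X]) :
    (Nat.card {P : F × F // P.2 ^ 2 = f.eval P.1} : ℤ) =
      Fintype.card F + ∑ x : F, quadraticChar F (f.eval x) := by
  have h1 := Pool.Agent.H126T.card_aff hF f 1 one_ne_zero
  simp only [map_one, one_mul] at h1
  exact h1

theorem weil_odd (hF : ringChar F ≠ 2) {f : F[X]} (hf : f.Monic) (hd : Odd f.natDegree) :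
    |∑ x : F, (quadraticChar F (f.eval x) : ℝ)| ≤ f.natDegree * Real.sqrt (Fintype.card F) := by
  have h2 := Pool.Agent.H341R2.Sharp.weil_sharp_monic hF hf hd.pos (by
    intro c h hgh
    have h5 : c ≠ 0 := by
      rintro rfl
      rw [C_0, zero_mul] at hgh
      rw [hgh, natDegree_zero] at hd
      exact absurd hd (by decide)
    have h6 : f.natDegree = 2 * h.natDegree := by
      conv_lhs => rw [hgh]
      rw [natDegree_C_mul h5, natDegree_pow]
    rw [h6] at hd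
    exact (Nat.not_odd_iff_even.2 (even_two_mul _)) hd)
  exact h2.trans (mul_le_mul_of_nonneg_right (by linarith) (Real.sqrt_nonneg _))

end

section
variable {K : Type} [Field K] [NumberField K] {n : ℕ}

theorem curve_abs (hn : Odd n) (a : Fin n → 𝓞 K) (v : HeightOneSpectrum (𝓞 K)) (h2 : (2 : 𝓞 K) ∉ v.asIdeal) :
    |(curveTrace (mp a) v : ℝ)| ≤ n * Real.sqrt (Ideal.absNorm v.asIdeal) := by
  classical
  haveI : v.asIdeal.IsMaximal := v.isMaximal
  letI : Field (𝓞 K ⧸ v.asIdeal) := Ideal.Quotient.field v.asIdeal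
  haveI : Finite (𝓞 K ⧸ v.asIdeal) := Ideal.finiteQuotientOfFreeOfNeBot _ v.ne_bot
  letI := Fintype.ofFinite (𝓞 K ⧸ v.asIdeal)
  have hch : ringChar (𝓞 K ⧸ v.asIdeal) ≠ 2 := by
    intro h
    apply h2
    have h3 : ((2 : ℕ) : 𝓞 K ⧸ v.asIdeal) = 0 := by
      rw [← h]
      exact ringChar.Nat.cast_ringChar
    rw [← Ideal.Quotient.eq_zero_iff_mem, map_ofNat]
    exact_mod_cast h3
  have hcard : Fintype.card (𝓞 K ⧸ v.asIdeal) = Ideal.absNorm v.asIdeal := by
    rw [← Nat.card_eq_fintype_card]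
    rfl
  have hm : ((mp a).map (Ideal.Quotient.mk v.asIdeal)).Monic := (mp_monic a).map _
  have hd : ((mp a).map (Ideal.Quotient.mk v.asIdeal)).natDegree = n := by
    rw [mp_map, mp_natDegree]
  have h4 := card_curve hch ((mp a).map (Ideal.Quotient.mk v.asIdeal))
  have h5 := weil_odd hch hm (by rw [hd]; exact hn)
  rw [hd, hcard] at h5
  have h6 : curveTrace (mp a) v = -∑ x : 𝓞 K ⧸ v.asIdeal, quadraticChar (𝓞 K ⧸ v.asIdeal)
      (((mp a).map (Ideal.Quotient.mk v.asIdeal)).eval x) := by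
    unfold curveTrace
    rw [hcard] at h4
    linarith
  rw [h6]
  push_cast
  rw [abs_neg]
  exact h5

theorem two_mem_iff (p : ℕ) [hp : Fact p.Prime] (φ : 𝓞 K →+* ZMod p) : (2 : 𝓞 K) ∈ (hv φ).asIdeal ↔ p = 2 := by
  have h1 : (2 : 𝓞 K) ∈ (hv φ).asIdeal ↔ φ 2 = 0 := Iff.rfl
  rw [h1, map_ofNat]
  constructor
  · intro h
    have h2 : ((2 : ℕ) : ZMod p) = 0 := by exact_mod_cast h
    rw [ZMod.natCast_eq_zero_iff] at h2
    exact (Nat.prime_dvd_prime_iff_eq hp.out Nat.prime_two).1 h2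
  · intro h
    have h2 : ((2 : ℕ) : ZMod p) = 0 := by
      rw [ZMod.natCast_eq_zero_iff, h]
    exact_mod_cast h2

theorem curve_hv (a : Fin n → 𝓞 K) (p : ℕ) [hp : Fact p.Prime] (hp2 : p ≠ 2) (φ : 𝓞 K →+* ZMod p) :
    (curveTrace (mp a) (hv φ) : ℝ) = -chs p (fun i => φ (a i)) := by
  classical
  have : (hv φ).asIdeal.IsMaximal := (hv φ).isMaximal
  let _ : Field (𝓞 K ⧸ (hv φ).asIdeal) := Ideal.Quotient.field _
  let ψ : 𝓞 K ⧸ (hv φ).asIdeal →+* ZMod p := Ideal.Quotient.lift (hv φ).asIdeal φ fun x hx => hx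
  have hψ : Function.Bijective ψ := by
    refine ⟨ψ.injective, fun y => ?_⟩
    obtain ⟨x, hx⟩ := ZMod.ringHom_surjective φ y
    exact ⟨Ideal.Quotient.mk _ x, hx⟩
  let e : 𝓞 K ⧸ (hv φ).asIdeal ≃+* ZMod p := RingEquiv.ofBijective ψ hψ
  have h1 : (mp (fun i => φ (a i))) =
      ((mp a).map (Ideal.Quotient.mk (hv φ).asIdeal)).map (e : 𝓞 K ⧸ (hv φ).asIdeal →+* ZMod p) := by
    rw [Polynomial.map_map, ← mp_map]
    congr 1
  have h2 := count_congr e ((mp a).map (Ideal.Quotient.mk (hv φ).asIdeal))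
  rw [← h1] at h2
  have h3 : ringChar (ZMod p) ≠ 2 := by rwa [ZMod.ringChar_zmod_n]
  have h4 := card_curve h3 (mp (fun i => φ (a i)))
  rw [ZMod.card] at h4
  have h5 : curveTrace (mp a) (hv φ) = -∑ t : ZMod p, quadraticChar (ZMod p) ((mp fun i => φ (a i)).eval t) := by
    unfold curveTrace
    rw [h2, h4, absNorm_hv]
    ring
  rw [h5]
  unfold chs
  push_cast
  rfl

/-! The weights. -/

/-- the bounds for the traces -/
theorem bounds (D : TraceData K) (v : HeightOneSpectrum (𝓞 K)) (hv' : v ∉ D.R) :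
    ‖D.s₁ v‖ ≤ D.N₁ * Real.sqrt (Ideal.absNorm v.asIdeal) ∧
    ‖D.t v‖ ≤ D.N₂ * (Ideal.absNorm v.asIdeal : ℝ) := by
  obtain ⟨α, β, ⟨b1, h1, h2, _⟩, ⟨b2, h4, h5, _⟩, hs1, hs2, ht⟩ := D.trace v hv'
  set q : ℝ := (Ideal.absNorm v.asIdeal : ℝ) with hq
  have hq0 : 0 ≤ q := Nat.cast_nonneg _
  have hα : ∀ j, ‖α j‖ = Real.sqrt q := by
    intro j
    have h3 : α j ∈ b1 1 := by
      rw [h1]
      exact Multiset.mem_map_of_mem α (Finset.mem_univ_val j)
    rw [h2 1 (α j) h3, Real.sqrt_eq_rpow]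
    norm_num
  have hβ : ∀ j, ‖β j‖ = q := by
    intro j
    have h3 : β j ∈ b2 2 := by
      rw [h4]
      exact Multiset.mem_map_of_mem β (Finset.mem_univ_val j)
    rw [h5 2 (β j) h3]
    norm_num
  constructor
  · rw [hs1]
    refine (norm_sum_le _ _).trans ?_
    rw [sum_congr rfl fun j _ => hα j, sum_const, card_univ, Fintype.card_fin, nsmul_eq_mul]
  · rw [ht]
    refine (norm_sum_le _ _).trans ?_
    rw [sum_congr rfl fun j _ => hβ j, sum_const, card_univ, Fintype.card_fin, nsmul_eq_mul]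

open Classical in
/-- the indicator function of the primes outside `R` -/
noncomputable def u₀ (D : TraceData K) (v : HeightOneSpectrum (𝓞 K)) : ℝ := if v ∈ D.R then 0 else 1

open Classical in
/-- the weight of `H^1` -/
noncomputable def u₁ (D : TraceData K) (v : HeightOneSpectrum (𝓞 K)) : ℝ :=
  if v ∈ D.R then 0 else (D.s₁ v).re / Real.sqrt (Ideal.absNorm v.asIdeal) / D.N₁

open Classical in
/-- the weight of `H^2` -/
noncomputable def u₂ (D : TraceData K) (v : HeightOneSpectrum (𝓞 K)) : ℝ :=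
  if v ∈ D.R then 0 else (D.t v).re / (Ideal.absNorm v.asIdeal : ℝ) / D.N₂

theorem norm_pos (v : HeightOneSpectrum (𝓞 K)) : (0 : ℝ) < (Ideal.absNorm v.asIdeal : ℝ) := by
  have hq : (1 : ℝ) < (Ideal.absNorm v.asIdeal : ℝ) := Pool.Agent.W353.PV.one_lt_norm v
  linarith

theorem u₀_abs (D : TraceData K) (v : HeightOneSpectrum (𝓞 K)) : |u₀ D v| ≤ 1 := by
  unfold u₀
  split_ifs <;> norm_num

theorem u₁_spec (D : TraceData K) (v : HeightOneSpectrum (𝓞 K)) : |u₁ D v| ≤ 1 ∧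
    (v ∉ D.R → D.N₁ * u₁ D v = (D.s₁ v).re / Real.sqrt (Ideal.absNorm v.asIdeal)) := by
  by_cases h : v ∈ D.R
  · unfold u₁
    rw [if_pos h]
    exact ⟨by norm_num, fun h' => absurd h h'⟩
  · have hq := norm_pos v
    have hs := Real.sqrt_pos.2 hq
    have h1 : |(D.s₁ v).re / Real.sqrt (Ideal.absNorm v.asIdeal)| ≤ D.N₁ := by
      rw [abs_div, abs_of_pos hs, div_le_iff₀ hs]
      exact (Complex.abs_re_le_norm _).trans (bounds D v h).1
    have h2 := Pool.Agent.H40SY.wt_aux (Nat.cast_nonneg _) h1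
    unfold u₁
    rw [if_neg h]
    exact ⟨h2.1, fun _ => h2.2⟩

theorem u₂_spec (D : TraceData K) (v : HeightOneSpectrum (𝓞 K)) : |u₂ D v| ≤ 1 ∧
    (v ∉ D.R → D.N₂ * u₂ D v = (D.t v).re / (Ideal.absNorm v.asIdeal : ℝ)) := by
  by_cases h : v ∈ D.R
  · unfold u₂
    rw [if_pos h]
    exact ⟨by norm_num, fun h' => absurd h h'⟩
  · have hq := norm_pos v
    have h1 : |(D.t v).re / (Ideal.absNorm v.asIdeal : ℝ)| ≤ D.N₂ := by
      rw [abs_div, abs_of_pos hq, div_le_iff₀ hq]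
      exact (Complex.abs_re_le_norm _).trans (bounds D v h).2
    have h2 := Pool.Agent.H40SY.wt_aux (Nat.cast_nonneg _) h1
    unfold u₂
    rw [if_neg h]
    exact ⟨h2.1, fun _ => h2.2⟩

end

end Pool.Agent.H48PC
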