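import Pool.Agent.H40SY.WR2
import Pool.Agent.H126T.Field

/-! The law of large numbers for bounded local functions in a well distributed family of polynomials. -/

set_option autoImplicit false

namespace Pool.Agent.H48PC

open NumberField IsDedekindDomain Finset Filter
open Pool.Agent.N842.HS (hv absNorm_hv hv_inj hv_surj VT mem_VT hom_finite card_high prime_above cf red red_cf
  red_surj)
open Pool.Agent.TH894.NE (mean Per box mean_mono mean_const mean_mul)
open Pool.Agent.N842.ST (av)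
open Pool.Agent.N647.TS (WellN lawW)
open Pool.Agent.H40SY (PP mem_PP SP SS SP_eq SS_congr SS_add SS_smul SS_sum SS_mono SS_abs loc loc_eq loc_per
  loc_abs loc_mean card_PP_le ev_absorb WellDistributed ac mp hom_le enum nn wellN nn_zmod card_enum)

section
variable {K : Type} [Field K] [NumberField K]

/-- **The law.** -/
theorem local_law {g n : ℕ} (ω : Fin g → 𝓞 K) (hω : (1 : 𝓞 K) ∈ Submodule.span ℤ (Set.range ω))
    {ι : Type} [Fintype ι] (TF : ι → ∀ (p : ℕ) [Fact p.Prime], (Fin n → ZMod p) → ℝ) (B₀ : ℝ) (hB₀ : 0 < B₀)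
    (TF_abs : ∀ (o : ι) (p : ℕ) [Fact p.Prime] (x : Fin n → ZMod p), |TF o p x| ≤ B₀)
    (δ : ℝ) (hδ : 0 < δ) (A B : ℕ) : ∃ M₀ y₀ : ℕ,
    ∀ (s : Finset ℕ) (m : ℕ → Fin (n * g) → ℕ) (H y : ℕ), WellN s m H → y₀ ≤ y →
    ∀ U : ℕ → Finset (HeightOneSpectrum (𝓞 K) → ℝ), (∀ T, (U T).card ≤ T ^ B) →
    (∀ T, ∀ u ∈ U T, ∀ v, |u v| ≤ 1) →
    ∀ Ex ⊆ s, (∀ j ∈ Ex, ∃ T : ℕ, y ≤ T ∧ T ^ M₀ ≤ 2 * H + 1 ∧ ∃ u ∈ U T, ∃ o : ι,
      (T : ℝ) ^ (1 / 2 + δ) < |∑ p ∈ PP T, loc ω u (fun p _ => TF o p) (m j) p -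
        SS T (fun p _ φ => u (hv φ) * (av p (TF o p) * Real.log p))|) →
    (Ex.card : ℝ) ≤ (y : ℝ) ^ (-(A : ℝ)) * s.card := by
  classical
  obtain ⟨M₀, x₀, hlaw⟩ := lawW (n * g) (δ / 2) A (B + 1) (by positivity)
  obtain ⟨D, hD⟩ : ∃ D : ℝ, D = Module.finrank ℚ K * B₀ := ⟨_, rfl⟩
  have hD0 : 0 < D := by
    have h1 : (0 : ℝ) < Module.finrank ℚ K := by exact_mod_cast Module.finrank_pos
    rw [hD]
    positivity
  obtain ⟨x₁, hx₁⟩ := eventually_atTop.1 (ev_absorb (2 * D) δ hδ)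
  obtain ⟨x₂, hx₂⟩ : ∃ x₂ : ℕ, x₂ = Fintype.card (ι) := ⟨_, rfl⟩
  refine ⟨M₀, x₀ + x₁ + x₂ + 2, fun s m H y hW hy U hU hU1 Ex hEx hExb => ?_⟩
  -- the system
  obtain ⟨Λ, hΛ⟩ : ∃ Λ : ℕ → Finset (ℕ × (HeightOneSpectrum (𝓞 K) → ℝ) × ι),
      Λ = fun x => if x₂ + 2 ≤ x then {x} ×ˢ ((U x) ×ˢ univ) else ∅ := ⟨_, rfl⟩
  have hΛm : ∀ x, ∀ l ∈ Λ x, l.1 = x ∧ l.2.1 ∈ U x ∧ 2 ≤ x := by
    intro x l hl
    rw [hΛ] at hl
    simp only at hl
    split_ifs at hl with h
    · rw [mem_product, mem_singleton, mem_product] at hl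
      exact ⟨hl.1, hl.2.1, by omega⟩
    · exact absurd hl (notMem_empty _)
  refine hlaw s m H y hW (by omega) _ Λ (fun x hx => ?_) ℕ (fun x _ => PP x) (fun _ a => a)
    (fun x l _ => card_PP_le x) (fun x l _ a ha => ⟨(mem_PP.1 ha).2.one_lt.le, (mem_PP.1 ha).1⟩)
    (fun x l _ a ha a' ha' hne => (Nat.coprime_primes (mem_PP.1 ha).2 (mem_PP.1 ha').2).2 hne)
    (fun l a v => (D * Real.log l.1)⁻¹ * loc ω l.2.1 (fun p _ => TF l.2.2 p) v a)
    (fun x l hl a ha => ?_) (fun x l hl a ha v => ?_) Ex hEx (fun j hj => ?_)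
  · rw [hΛ]
    simp only
    split_ifs with h
    · rw [card_product, card_product, card_singleton, one_mul, card_univ, ← hx₂]
      have h1 : (U x).card * x₂ ≤ x ^ (B + 1) := by
        rw [pow_succ]
        exact Nat.mul_le_mul (hU x) (by omega)
      have h2 : (((U x).card * x₂ : ℕ) : ℝ) ≤ ((x ^ (B + 1) : ℕ) : ℝ) := by exact_mod_cast h1
      refine h2.trans (le_of_eq ?_)
      push_cast
      rw [← Real.rpow_natCast]
      push_cast
      rfl
    · rw [card_empty]
      push_cast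
      positivity
  · have : Fact a.Prime := ⟨(mem_PP.1 ha).2⟩
    intro v
    exact congrArg (fun z => (D * Real.log l.1)⁻¹ * z)
      ((loc_per (ω := ω) (u := l.2.1) (H := fun p _ => TF l.2.2 p) a) v)
  · have hap := (mem_PP.1 ha).2
    have : Fact a.Prime := ⟨hap⟩
    obtain ⟨h1, h2, h3⟩ := hΛm x l hl
    have hlx : 0 < Real.log l.1 := by
      rw [h1]
      exact Real.log_pos (by exact_mod_cast (by omega : 1 < x))
    have h4 := loc_abs (ω := ω) (u := l.2.1) (H := fun p _ => TF l.2.2 p) (hU1 x l.2.1 h2)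
      (B := B₀) (fun p _ z => TF_abs l.2.2 p z) v a
    have h5 : Real.log a ≤ Real.log l.1 := by
      rw [h1]
      exact Real.log_le_log (by exact_mod_cast hap.pos) (by exact_mod_cast (mem_PP.1 ha).1)
    rw [abs_mul, abs_of_pos (by positivity), inv_mul_le_iff₀ (by positivity), mul_one]
    refine h4.trans ?_
    rw [← mul_assoc, hD]
    exact mul_le_mul_of_nonneg_left h5 (by positivity)
  · obtain ⟨T, hyT, hTH, u, hu, o, ho⟩ := hExb j hj
    refine ⟨T, hyT, hTH, (T, u, o), ?_, ?_⟩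
    · rw [hΛ]
      simp only
      rw [if_pos (by omega), mem_product, mem_singleton, mem_product]
      exact ⟨rfl, hu, mem_univ _⟩
    · simp only
      have hlT : 0 < Real.log T := Real.log_pos (by exact_mod_cast (by omega : 1 < T))
      have hDl : 0 < D * Real.log T := by positivity
      have hT0 : (0 : ℝ) < T := by exact_mod_cast (by omega : 0 < T)
      have e1 : ∑ a ∈ PP T, (D * Real.log T)⁻¹ * loc ω u (fun p _ => TF o p) (m j) a =
          (D * Real.log T)⁻¹ * ∑ a ∈ PP T, loc ω u (fun p _ => TF o p) (m j) a := by rw [mul_sum]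
      have e2 : ∑ a ∈ PP T, mean (n * g) a
          (fun v => (D * Real.log T)⁻¹ * loc ω u (fun p _ => TF o p) v a) =
          (D * Real.log T)⁻¹ * SS T (fun p _ φ => u (hv φ) * (av p (TF o p) * Real.log p)) := by
        unfold SS
        rw [mul_sum]
        refine sum_congr rfl fun a ha => ?_
        have : Fact a.Prime := ⟨(mem_PP.1 ha).2⟩
        rw [mean_mul, loc_mean (H := fun p _ => TF o p) hω a]
      rw [e1, e2, ← mul_sub, abs_mul, abs_of_pos (inv_pos.2 hDl)]
      rw [lt_inv_mul_iff₀ hDl]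
      refine lt_of_le_of_lt ?_ ho
      have h6 : Real.sqrt (max 1 (∑ a ∈ PP T, mean (n * g) a
          (fun v => ((D * Real.log T)⁻¹ * loc ω u (fun p _ => TF o p) v a) ^ 2))) ≤ (T : ℝ) ^ (1 / 2 : ℝ) := by
        rw [← Real.sqrt_eq_rpow]
        apply Real.sqrt_le_sqrt
        apply max_le
        · exact_mod_cast (by omega : 1 ≤ T)
        · refine (sum_le_sum (g := fun _ => (1 : ℝ)) fun a ha => ?_).trans ?_
          · have hap := (mem_PP.1 ha).2
            have : Fact a.Prime := ⟨hap⟩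
            have h4 : ∀ v, |(D * Real.log T)⁻¹ * loc ω u (fun p _ => TF o p) v a| ≤ 1 := by
              intro v
              have h4 := loc_abs (ω := ω) (u := u) (H := fun p _ => TF o p) (hU1 T u hu)
                (B := B₀) (fun p _ z => TF_abs o p z) v a
              have h5 : Real.log a ≤ Real.log T :=
                Real.log_le_log (by exact_mod_cast hap.pos) (by exact_mod_cast (mem_PP.1 ha).1)
              rw [abs_mul, abs_of_pos (by positivity), inv_mul_le_iff₀ (by positivity), mul_one]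
              refine h4.trans ?_
              rw [← mul_assoc, hD]
              exact mul_le_mul_of_nonneg_left h5 (by positivity)
            have h7 := mean_mono (d := n * g) (q := a)
              (F := fun v => ((D * Real.log T)⁻¹ * loc ω u (fun p _ => TF o p) v a) ^ 2)
              (G := fun _ => (1 : ℝ)) (fun v => by
                have := h4 v
                rw [← sq_abs]
                exact pow_le_one₀ (abs_nonneg _) this)
            rw [mean_const _ _ hap.one_lt.le] at h7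
            exact h7
          · rw [sum_const, nsmul_eq_mul, mul_one]
            exact_mod_cast card_PP_le T
      calc D * Real.log T * (Real.sqrt (max 1 (∑ a ∈ PP T, mean (n * g) a
          (fun v => ((D * Real.log T)⁻¹ * loc ω u (fun p _ => TF o p) v a) ^ 2))) * (T : ℝ) ^ (δ / 2)) ≤
          D * Real.log T * ((T : ℝ) ^ (1 / 2 : ℝ) * (T : ℝ) ^ (δ / 2)) := by
            apply mul_le_mul_of_nonneg_left _ hDl.le
            exact mul_le_mul_of_nonneg_right h6 (by positivity)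
        _ = D * ((T : ℝ) ^ (1 / 2 + δ / 2) * Real.log T) := by
            rw [← Real.rpow_add hT0]
            ring
        _ ≤ 2 * D * ((T : ℝ) ^ (1 / 2 + δ / 2) * Real.log T) := by
            apply mul_le_mul_of_nonneg_right _ (by positivity)
            linarith
        _ ≤ (T : ℝ) ^ (1 / 2 + δ) := hx₁ T (by omega)


variable {n g : ℕ}

/-- the polynomial with the coefficients `a` satisfies the law for the test functions `TF` and the weights in
`U` -/
def Law {ι : Type} (TF : ι → ∀ (p : ℕ) [Fact p.Prime], (Fin n → ZMod p) → ℝ) (a : Fin n → 𝓞 K) (δ : ℝ) (U : ℕ → Finset (HeightOneSpectrum (𝓞 K) → ℝ)) (E Q y : ℕ) : Prop :=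
  y ^ E ≤ Q → ∀ T : ℕ, y ≤ T → T ^ E ≤ Q → ∀ u : HeightOneSpectrum (𝓞 K) → ℝ,
    (u ∈ U T ∨ u = fun _ => 1) → ∀ o : ι,
      |SS T (fun p _ φ => u (hv φ) * (TF o p (fun i => φ (a i)) * Real.log p)) -
        SS T (fun p _ φ => u (hv φ) * (av p (TF o p) * Real.log p))| ≤ (T : ℝ) ^ (1 / 2 + δ / 2)

/-- **The engine.** -/
theorem engine (ω : Fin g → 𝓞 K) (hω : (1 : 𝓞 K) ∈ Submodule.span ℤ (Set.range ω))
    {ι : Type} [Fintype ι] (TF : ι → ∀ (p : ℕ) [Fact p.Prime], (Fin n → ZMod p) → ℝ) (B₀ : ℝ) (hB₀ : 0 < B₀)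
    (TF_abs : ∀ (o : ι) (p : ℕ) [Fact p.Prime] (x : Fin n → ZMod p), |TF o p x| ≤ B₀) (δ : ℝ) (hδ : 0 < δ)
    (A B : ℕ) : ∃ E y₀ : ℕ, 1 ≤ y₀ ∧
    ∀ U : ℕ → Finset (HeightOneSpectrum (𝓞 K) → ℝ), (∀ T, 2 ≤ T → (U T).card ≤ T ^ B) →
    (∀ T, ∀ u ∈ U T, ∀ v, |u v| ≤ 1) → ∀ (Q y : ℕ), y₀ ≤ y →
    ∀ S : Finset (Fin n → Fin g → ℤ), WellDistributed Q S →
      open Classical in
      ((S.filter fun c => ¬ Law TF (ac ω c) δ U E Q y).card : ℝ) ≤ 1 / (y : ℝ) ^ A * S.card := by
  classical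
  obtain ⟨M₀, y₀, hlaw⟩ := local_law (n := n) ω hω TF B₀ hB₀ TF_abs (δ / 2) (by positivity) A (B + 1)
  refine ⟨M₀ + 2, y₀ + 2, by omega, fun U hUc hU1 Q y hy S hS => ?_⟩
  -- the trivial case
  rcases Nat.eq_zero_or_pos Q with hQ | hQ
  · have h1 : (S.filter fun c => ¬ Law TF (ac ω c) δ U (M₀ + 2) Q y) = ∅ := by
      refine filter_eq_empty_iff.2 fun c _ => not_not.2 fun hyE => ?_
      exfalso
      rw [hQ] at hyE
      have : 0 < y ^ (M₀ + 2) := Nat.pow_pos (by omega)
      omega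
    rw [h1, card_empty]
    push_cast
    positivity
  obtain ⟨H, hH⟩ : ∃ H : ℕ, H = (Q - 1) / 2 := ⟨_, rfl⟩
  have hHQ : 2 * H + 1 ≤ Q := by omega
  obtain ⟨c, hc1, hc2⟩ := enum S
  obtain ⟨m, hm⟩ : ∃ m : ℕ → Fin (n * g) → ℕ, m = fun t => nn (2 * H + 1).factorial (c t) := ⟨_, rfl⟩
  have hW := wellN hS hHQ hc1 hc2
  rw [← hm] at hW
  obtain ⟨U', hU'⟩ : ∃ U' : ℕ → Finset (HeightOneSpectrum (𝓞 K) → ℝ),
      U' = fun T => if 2 ≤ T then insert (fun _ => 1) (U T) else ∅ := ⟨_, rfl⟩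
  have hUc' : ∀ T, (U' T).card ≤ T ^ (B + 1) := by
    intro T
    rw [hU']
    simp only
    split_ifs with h2
    · refine (card_insert_le _ _).trans ?_
      have h3 := hUc T h2
      have h4 : 1 ≤ T ^ B := Nat.one_le_pow _ _ (by omega)
      calc _ ≤ T ^ B + T ^ B := by omega
        _ = T ^ B * 2 := by ring
        _ ≤ T ^ B * T := Nat.mul_le_mul_left _ h2
        _ = T ^ (B + 1) := by rw [pow_succ]
    · rw [card_empty]
      exact Nat.zero_le _
  have hU1' : ∀ T, ∀ u ∈ U' T, ∀ v, |u v| ≤ 1 := by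
    intro T u hu v
    rw [hU'] at hu
    simp only at hu
    split_ifs at hu with h2
    · rw [mem_insert] at hu
      rcases hu with rfl | hu
      · simp
      · exact hU1 T u hu v
    · exact absurd hu (notMem_empty _)
  have hfin := hlaw (range S.card) m H y hW (by omega) U' hUc' hU1'
    ((range S.card).filter fun t => ¬ Law TF (ac ω (c t)) δ U (M₀ + 2) Q y) (filter_subset _ _)
    (fun t ht => by
      by_contra hno
      apply (mem_filter.1 ht).2
      -- the law for all weights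
      have hkey : ∀ T : ℕ, y ≤ T → T ^ (M₀ + 2) ≤ Q → ∀ u : HeightOneSpectrum (𝓞 K) → ℝ,
          (u ∈ U T ∨ u = fun _ => 1) → ∀ o : ι,
          |SS T (fun p _ φ => u (hv φ) * (TF o p (fun i => φ (ac ω (c t) i)) * Real.log p)) -
            SS T (fun p _ φ => u (hv φ) * (av p (TF o p) * Real.log p))| ≤ (T : ℝ) ^ (1 / 2 + δ / 2) := by
        intro T hyT hTE u hu o
        have hTH : T ^ M₀ ≤ 2 * H + 1 ∧ T ≤ 2 * H + 1 := by
          have hT2 : 2 ≤ T := by omega
          have h1 : T ^ (M₀ + 2) = T ^ M₀ * T * T := by ring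
          have h2 : 1 ≤ T ^ M₀ := Nat.one_le_pow _ _ (by omega)
          have h3 : T ^ M₀ * T * 2 ≤ Q := (Nat.mul_le_mul_left _ hT2).trans (by rw [← h1]; exact hTE)
          have h4 : T ^ M₀ ≤ T ^ M₀ * T := Nat.le_mul_of_pos_right _ (by omega)
          have h5 : T ≤ T ^ M₀ * T := Nat.le_mul_of_pos_left _ (by omega)
          constructor <;> omega
        by_contra hbig
        rw [not_le] at hbig
        refine hno ⟨T, hyT, hTH.1, u, ?_, o, ?_⟩
        · rw [hU']
          simp only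
          rw [if_pos (by omega), mem_insert]
          rcases hu with hu | rfl
          · exact Or.inr hu
          · exact Or.inl rfl
        · refine lt_of_lt_of_eq hbig ?_
          congr 2
          show SS T (fun p _ φ => u (hv φ) * (TF o p (fun i => φ (ac ω (c t) i)) * Real.log p)) =
            SS T (fun p _ φ => u (hv φ) * (TF o p (fun i => φ (cf ω (m t) i)) * Real.log p))
          refine SS_congr T fun p hp φ hpT => ?_
          have h1 : (fun i => φ (ac ω (c t) i)) = fun i => φ (cf ω (m t) i) := by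
            funext i
            unfold ac cf
            rw [map_sum, map_sum]
            refine sum_congr rfl fun j' _ => ?_
            rw [map_mul, map_mul, map_intCast, map_natCast, hm]
            congr 1
            exact (nn_zmod (Nat.factorial_pos _)
              (Nat.dvd_factorial hp.out.pos (hpT.trans hTH.2)) (c t) i j').symm
          rw [h1]
      intro hyE
      exact hkey)
  rw [card_enum hc1 hc2]
  refine hfin.trans (le_of_eq ?_)
  rw [card_range, Real.rpow_neg (Nat.cast_nonneg _), Real.rpow_natCast, one_div]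


end

end Pool.Agent.H48PC
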