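import Pool.Agent.H48PC.Close

/-! Tauberian averages of products with powers of curves: the theorem. -/

set_option autoImplicit false

namespace Pool.Agent.H48PC

open NumberField IsDedekindDomain Finset Filter Polynomial
open Pool.Agent.H40SY (TraceData WellDistributed IsSymmetric poly ac mp)

section
variable {K : Type} [Field K] [NumberField K] {n g : ℕ}

theorem ProductClose.mono {D : TraceData K} {f : (𝓞 K)[X]} {T : ℕ}
    {ε ε' : ℝ} (h : ProductClose D f T ε) (hε : ε ≤ ε') : ProductClose D f T ε' :=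
  fun m R' hR => (h m R' hR).trans (mul_le_mul_of_nonneg_left hε (by positivity))

/-- **The theorem.** -/
theorem product_main (hn : Odd n) (hn3 : 3 ≤ n) (ω : Fin g → 𝓞 K)
    (hω : (1 : 𝓞 K) ∈ Submodule.span ℤ (Set.range ω)) (δ : ℝ)
    (hδ : 0 < δ) (A B : ℕ) : ∃ E y₀ : ℕ, ∀ (V : ℕ → TraceData K) (Q y : ℕ), y₀ ≤ y →
    ∀ S : Finset (Fin n → Fin g → ℤ), WellDistributed Q S →
      open Classical in
      ((S.filter fun c => ¬ ProductLaw ω δ B V E Q y c).card : ℝ) ≤ 1 / (y : ℝ) ^ A * S.card := by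
  classical
  obtain ⟨E₁, y₁, -, h1⟩ := Pool.Agent.H40SY.engine (n := n) ω hω (1 / 2) (by norm_num) le_rfl (A + 1) 0
  obtain ⟨E₂, y₂, -, h2⟩ := engine (n := n) ω hω (tf (n := n)) ((n : ℝ) ^ 2)
    (by have : (0 : ℝ) < n := by exact_mod_cast hn.pos
        positivity) (tf_abs hn) δ hδ (A + 1) (B + 1)
  obtain ⟨T₀, hT₀⟩ := product_close (K := K) hn hn3 δ hδ
  refine ⟨E₁ + E₂, y₁ + y₂ + T₀ + 2, fun V Q y hy S hS => ?_⟩
  obtain ⟨U, hU⟩ : ∃ U : ℕ → Finset (HeightOneSpectrum (𝓞 K) → ℝ), U = fun T =>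
      ((range (T ^ B)).image fun j => u₀ (V j)) ∪ ((range (T ^ B)).image fun j => u₁ (V j)) := ⟨_, rfl⟩
  have hUc : ∀ T, 2 ≤ T → (U T).card ≤ T ^ (B + 1) := by
    intro T hT
    rw [hU]
    simp only
    have e1 : ((range (T ^ B)).image fun j => u₀ (V j)).card ≤ T ^ B := by
      refine card_image_le.trans ?_
      rw [card_range]
    have e2 : ((range (T ^ B)).image fun j => u₁ (V j)).card ≤ T ^ B := by
      refine card_image_le.trans ?_
      rw [card_range]
    have e4 := card_union_le ((range (T ^ B)).image fun j => u₀ (V j))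
      ((range (T ^ B)).image fun j => u₁ (V j))
    have e6 : T ^ B * 2 ≤ T ^ (B + 1) := by
      rw [pow_succ]
      exact Nat.mul_le_mul_left _ hT
    omega
  have hU1 : ∀ T, ∀ u ∈ U T, ∀ v, |u v| ≤ 1 := by
    intro T u hu v
    rw [hU] at hu
    simp only at hu
    rw [mem_union, mem_image, mem_image] at hu
    rcases hu with ⟨j, _, rfl⟩ | ⟨j, _, rfl⟩
    · exact u₀_abs _ _
    · exact (u₁_spec _ _).1
  have b1 := h1 (fun _ => ∅) (fun T _ => by simp) (fun T u hu => by simp at hu) Q y (by omega) S hS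
  have b2 := h2 U hUc hU1 Q y (by omega) S hS
  have hsub : (S.filter fun c => ¬ ProductLaw ω δ B V (E₁ + E₂) Q y c) ⊆
      (S.filter fun c => ¬ Pool.Agent.H40SY.Law (ac ω c) (1 / 2) (fun _ => ∅) E₁ Q y) ∪
      (S.filter fun c => ¬ Law (tf (n := n)) (ac ω c) δ U E₂ Q y) := by
    intro c hc
    rw [mem_filter] at hc
    rw [mem_union, mem_filter, mem_filter]
    by_contra hcon
    rw [not_or] at hcon
    obtain ⟨hc1, hc2⟩ := hcon
    have l1 : Pool.Agent.H40SY.Law (ac ω c) (1 / 2) (fun _ => ∅) E₁ Q y := by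
      by_contra h
      exact hc1 ⟨hc.1, h⟩
    have l2 : Law (tf (n := n)) (ac ω c) δ U E₂ Q y := by
      by_contra h
      exact hc2 ⟨hc.1, h⟩
    refine hc.2 fun hyQ => ?_
    have hy1 : 1 ≤ y := by omega
    have hyQ1 : y ^ E₁ ≤ Q := (Nat.pow_le_pow_right hy1 (by omega)).trans hyQ
    refine ⟨(l1 hyQ1).1, fun T hyT hTE j hj => ?_⟩
    have hTE2 : T ^ E₂ ≤ Q := (Nat.pow_le_pow_right (by omega) (by omega)).trans hTE
    have h3 : ∀ w : TraceData K → HeightOneSpectrum (𝓞 K) → ℝ,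
        w (V j) ∈ (range (T ^ B)).image fun j => w (V j) := fun w =>
      mem_image.2 ⟨j, mem_range.2 hj, rfl⟩
    exact hT₀ (ac ω c) U hU1 E₂ Q y l2 T (by omega) hyT hTE2 (V j)
      (by rw [hU]; exact mem_union_left _ (h3 u₀))
      (by rw [hU]; exact mem_union_right _ (h3 u₁))
  have h4 := (card_le_card hsub).trans (card_union_le _ _)
  have h5 : ((S.filter fun c => ¬ ProductLaw ω δ B V (E₁ + E₂) Q y c).card : ℝ) ≤
      1 / (y : ℝ) ^ (A + 1) * S.card + 1 / (y : ℝ) ^ (A + 1) * S.card := by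
    refine le_trans (b := (((S.filter fun c => ¬ Pool.Agent.H40SY.Law (ac ω c) (1 / 2)
      (fun _ => ∅) E₁ Q y).card : ℕ) : ℝ) + ((S.filter fun c =>
        ¬ Law (tf (n := n)) (ac ω c) δ U E₂ Q y).card : ℕ)) ?_ (add_le_add b1 b2)
    exact_mod_cast h4
  refine h5.trans ?_
  have hy0 : (2 : ℝ) ≤ y := by exact_mod_cast (by omega : 2 ≤ y)
  have h6 : 1 / (y : ℝ) ^ (A + 1) + 1 / (y : ℝ) ^ (A + 1) ≤ 1 / (y : ℝ) ^ A := by
    have hy1 : (0 : ℝ) < y := by linarith
    rw [← add_div, div_le_div_iff₀ (by positivity) (by positivity), pow_succ]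
    have : 0 < (y : ℝ) ^ A := by positivity
    nlinarith
  rw [← add_mul]
  exact mul_le_mul_of_nonneg_right h6 (Nat.cast_nonneg _)

end

end Pool.Agent.H48PC
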