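import Pool.Agent.H48PC.Law
import Pool.Agent.Y57.FD.Mom

/-! The traces of the curves `y ^ 2 = f(x)`, `f` monic of odd degree, over the prime fields and their first two
moments. -/

set_option autoImplicit false

namespace Pool.Agent.H48PC

open Finset Polynomial
open Pool.Agent.N842.ST (av)
open Pool.Agent.H40SY (mp mp_monic mp_natDegree)
open Pool.Agent.Y57.FD.Mom (M e moment_eq M_odd M_zero M_N_zero M_succ e_zero e_odd e_even)

section
variable {n : ℕ}

/-- the sum of the values of the quadratic character -/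
noncomputable def chs (p : ℕ) [Fact p.Prime] (x : Fin n → ZMod p) : ℝ :=
  ∑ t : ZMod p, (quadraticChar (ZMod p) ((mp x).eval t) : ℝ)

theorem chs_weil (hn : Odd n) (p : ℕ) [hp : Fact p.Prime] (hp2 : p ≠ 2) (x : Fin n → ZMod p) :
    |chs p x| ≤ n * Real.sqrt p := by
  have h1 : ringChar (ZMod p) ≠ 2 := by rwa [ZMod.ringChar_zmod_n]
  have h2 := Pool.Agent.H341R2.Sharp.weil_sharp_monic h1 (mp_monic x)
    (by rw [mp_natDegree]; exact hn.pos) (by
    intro c h hgh
    have hd := mp_natDegree x
    have h5 : c ≠ 0 := by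
      rintro rfl
      rw [C_0, zero_mul] at hgh
      rw [hgh, natDegree_zero] at hd
      rw [← hd] at hn
      exact absurd hn (by decide)
    have h6 : (mp x).natDegree = 2 * h.natDegree := by
      rw [hgh, natDegree_C_mul h5, natDegree_pow]
    rw [← hd, h6] at hn
    exact (Nat.not_odd_iff_even.2 (even_two_mul _)) hn)
  rw [mp_natDegree, ZMod.card] at h2
  refine h2.trans (mul_le_mul_of_nonneg_right (by linarith) (Real.sqrt_nonneg _))

theorem eval_mp (p : ℕ) [hp : Fact p.Prime] (x : Fin n → ZMod p) (t : ZMod p) :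
    (mp x).eval t = Pool.Agent.Y57.FD.Mom.val (ZMod p) n x t := by
  unfold mp Pool.Agent.Y57.FD.Mom.val
  rw [eval_add, eval_pow, eval_X, eval_finsetSum]
  congr 1
  refine sum_congr rfl fun i _ => ?_
  rw [eval_mul, eval_C, eval_pow, eval_X]

theorem mom_one (hn : 1 ≤ n) (p : ℕ) [hp : Fact p.Prime] (hp2 : p ≠ 2) :
    ∑ x : Fin n → ZMod p, chs p x = 0 := by
  have h1 : ringChar (ZMod p) ≠ 2 := by rwa [ZMod.ringChar_zmod_n]
  have h2 := moment_eq (ZMod p) 1 n hn
  rw [M_odd (ZMod p) h1 1 (by decide)] at h2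
  have hp0 : (0 : ℝ) < p := by exact_mod_cast hp.out.pos
  rw [ZMod.card, div_eq_zero_iff] at h2
  rcases h2 with h2 | h2
  · rw [← h2]
    refine sum_congr rfl fun x _ => ?_
    unfold chs
    rw [pow_one]
    exact sum_congr rfl fun t _ => by rw [eval_mp]
  · exact absurd h2 (by positivity)

theorem M_two (p : ℕ) [hp : Fact p.Prime] (hp2 : p ≠ 2) (N : ℕ) :
    M (ZMod p) 2 N = N * (1 - 1 / (p : ℝ)) := by
  have h1 : ringChar (ZMod p) ≠ 2 := by rwa [ZMod.ringChar_zmod_n]
  induction N with
  | zero => rw [M_N_zero _ _ (by norm_num)]; simp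
  | succ N ih =>
    rw [M_succ, sum_range_succ, sum_range_succ, sum_range_succ, sum_range_zero, e_zero,
      e_odd _ h1 1 (by decide), e_even _ 2 (by decide) (by norm_num)]
    simp only [Nat.sub_zero, Nat.sub_self, M_zero, ih, ZMod.card]
    push_cast
    simp
    ring

theorem mom_two (hn : 2 ≤ n) (p : ℕ) [hp : Fact p.Prime] (hp2 : p ≠ 2) :
    (∑ x : Fin n → ZMod p, chs p x ^ 2) / (p : ℝ) ^ n = p - 1 := by
  have h2 := moment_eq (ZMod p) 2 n hn
  have hp0 : (0 : ℝ) < p := by exact_mod_cast hp.out.pos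
  rw [ZMod.card, M_two p hp2] at h2
  have h3 : (p : ℝ) * (1 - 1 / (p : ℝ)) = p - 1 := by field_simp
  rw [← h3, ← h2]
  congr 1
  refine sum_congr rfl fun x _ => ?_
  unfold chs
  congr 1
  exact sum_congr rfl fun t _ => by rw [eval_mp]

/-- the normalised trace -/
noncomputable def tf0 (p : ℕ) [Fact p.Prime] (x : Fin n → ZMod p) : ℝ :=
  if p = 2 then 0 else -(chs p x / Real.sqrt p)

/-- its square -/
noncomputable def tf1 (p : ℕ) [Fact p.Prime] (x : Fin n → ZMod p) : ℝ :=
  if p = 2 then 0 else chs p x ^ 2 / p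

open Classical in
/-- the indicator function of the bad case -/
noncomputable def tf2 (p : ℕ) [Fact p.Prime] (x : Fin n → ZMod p) : ℝ :=
  if p ≠ 2 ∧ (mp x).Separable then 0 else 1

/-- the test functions: the normalised trace, its square, and the indicator function of the bad case -/
noncomputable def tf (o : Fin 3) (p : ℕ) [Fact p.Prime] (x : Fin n → ZMod p) : ℝ :=
  match o with
  | 0 => tf0 p x
  | 1 => tf1 p x
  | 2 => tf2 p x

theorem tf_abs (hn : Odd n) (o : Fin 3) (p : ℕ) [hp : Fact p.Prime] (x : Fin n → ZMod p) :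
    |tf o p x| ≤ (n : ℝ) ^ 2 := by
  have hp0 : (0 : ℝ) < p := by exact_mod_cast hp.out.pos
  have hs : 0 < Real.sqrt p := Real.sqrt_pos.2 hp0
  have hn1 : (1 : ℝ) ≤ n := by exact_mod_cast hn.pos
  match o with
  | 0 =>
    show |tf0 p x| ≤ _
    unfold tf0
    split_ifs with h
    · rw [abs_zero]; positivity
    · rw [abs_neg, abs_div, abs_of_pos hs, div_le_iff₀ hs]
      refine (chs_weil hn p h x).trans (mul_le_mul_of_nonneg_right ?_ hs.le)
      nlinarith
  | 1 =>
    show |tf1 p x| ≤ _
    unfold tf1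
    split_ifs with h
    · rw [abs_zero]; positivity
    · rw [abs_div, abs_of_pos hp0, div_le_iff₀ hp0, abs_pow]
      have h1 := pow_le_pow_left₀ (abs_nonneg _) (chs_weil hn p h x) 2
      rwa [mul_pow, Real.sq_sqrt hp0.le] at h1
  | 2 =>
    show |tf2 p x| ≤ _
    unfold tf2
    split_ifs with h
    · rw [abs_zero]; positivity
    · rw [abs_one]; nlinarith

theorem av_zero (hn : 1 ≤ n) (p : ℕ) [hp : Fact p.Prime] : av (D := n) p (tf 0 p) = 0 := by
  unfold av
  have : ∑ u : Fin n → ZMod p, tf 0 p u = 0 := by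
    show ∑ u : Fin n → ZMod p, tf0 p u = 0
    unfold tf0
    split_ifs with h
    · simp
    · rw [sum_neg_distrib, ← sum_div, mom_one hn p h, zero_div, neg_zero]
  rw [this, zero_div]

theorem av_one (hn : 2 ≤ n) (p : ℕ) [hp : Fact p.Prime] : |av (D := n) p (tf 1 p) - 1| ≤ 2 / p := by
  have hp0 : (0 : ℝ) < p := by exact_mod_cast hp.out.pos
  unfold av
  by_cases h : p = 2
  · have : ∑ u : Fin n → ZMod p, tf 1 p u = 0 := by
      show ∑ u : Fin n → ZMod p, tf1 p u = 0
      unfold tf1
      simp only [if_pos h]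
      simp
    rw [this, zero_div, zero_sub, abs_neg, abs_one, h]
    norm_num
  · have h1 : ∑ u : Fin n → ZMod p, tf 1 p u = (∑ u : Fin n → ZMod p, chs p u ^ 2) / p := by
      show ∑ u : Fin n → ZMod p, tf1 p u = _
      unfold tf1
      simp only [if_neg h]
      rw [sum_div]
    rw [h1, div_right_comm, mom_two hn p h]
    have h2 : ((p : ℝ) - 1) / p - 1 = -(1 / p) := by field_simp; ring
    rw [h2, abs_neg, abs_of_pos (by positivity)]
    gcongr
    norm_num

open Classical in
theorem av_two (p : ℕ) [hp : Fact p.Prime] :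
    0 ≤ av (D := n) p (tf 2 p) ∧ av (D := n) p (tf 2 p) ≤ (n + 2) / p := by
  have hp0 : (0 : ℝ) < p := by exact_mod_cast hp.out.pos
  have hnn : ∀ u : Fin n → ZMod p, 0 ≤ tf 2 p u := by
    intro u
    show 0 ≤ tf2 p u
    unfold tf2
    split_ifs <;> norm_num
  refine ⟨?_, ?_⟩
  · unfold av
    exact div_nonneg (sum_nonneg fun u _ => hnn u) (by positivity)
  · by_cases h : p = 2
    · have h1 := Pool.Agent.N842.ST.av_abs p (tf (n := n) 2 p) 1 (fun u => by
        show |tf2 p u| ≤ 1
        unfold tf2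
        split_ifs <;> norm_num)
      refine (le_abs_self _).trans (h1.trans ?_)
      rw [h, le_div_iff₀ (by norm_num)]
      push_cast
      have : (0 : ℝ) ≤ n := Nat.cast_nonneg n
      linarith
    · have h1 : av (D := n) p (tf 2 p) = av (D := n) p (Pool.Agent.H40SY.TF none p) := by
        unfold av
        congr 1
        refine sum_congr rfl fun u _ => ?_
        show tf2 p u = (if (mp u).Separable then (0 : ℝ) else 1)
        unfold tf2
        by_cases hs : (mp u).Separable
        · rw [if_pos ⟨h, hs⟩, if_pos hs]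
        · rw [if_neg (fun hh => hs hh.2), if_neg hs]
      rw [h1]
      refine (Pool.Agent.H40SY.av_none p).2.trans ?_
      gcongr
      linarith

end

end Pool.Agent.H48PC
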